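import Pool.Agent.Lib.MP_4fbe7c_an.ND.Iface
import Pool.Agent.Lib.MP_4fbe7c_an.ND.Base

/-! Project ND: row LIP, the Lipschitz estimate (doubling of variables). -/

set_option autoImplicit false

open Set MeasureTheory Filter Topology

namespace Pool.Agent.Lib.MP_4fbe7c_an.ND.H45

open Pool.Agent.Lib.MP_4fbe7c_an.ND

variable {p : ℕ} {Ω : Set (Eu p)} {q : Eu p → ℝ}

theorem psi_symm (B σ A : ℝ) (x y : Eu p) : Psi q B σ A x y = Psi q B σ A y x := by
  unfold Psi
  rw [norm_sub_rev, add_comm (q x)]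

theorem psi_nonneg {B σ A : ℝ} (hB : 0 ≤ B) (hσ : 0 < σ) {x y : Eu p} (h : ‖x - y‖ ≤ σ) :
    0 ≤ Psi q B σ A x y := by
  unfold Psi
  have h1 : 0 ≤ ‖x - y‖ / σ := by positivity
  have h2 : ‖x - y‖ / σ ≤ 1 := (div_le_one hσ).2 h
  refine mul_nonneg (mul_nonneg hB ?_) (Real.exp_pos _).le
  nlinarith

theorem deriv_nonneg_left {φ : ℝ → ℝ} {D t : ℝ} (h : HasDerivAt φ D t)
    (hm : ∀ᶠ s in 𝓝[<] t, φ s ≤ φ t) : 0 ≤ D := by
  have h1 := h.hasDerivWithinAt (s := Iio t)
  rw [hasDerivWithinAt_iff_tendsto_slope' (by simp)] at h1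
  refine ge_of_tendsto h1 ?_
  filter_upwards [hm, self_mem_nhdsWithin] with s hs hs0
  simp only [mem_Iio] at hs0
  rw [slope_def_field]
  exact div_nonneg_of_nonpos (by linarith) (by linarith)

theorem hasDerivAt_psi {B A d t : ℝ} (hd : 0 < d) (ht : 0 < t) (x y : Eu p) :
    HasDerivAt (fun s => Psi q B (4 * Real.sqrt (d * s)) A x y)
      (-(B * Real.exp (A * (q x + q y)) / t) *
        (‖x - y‖ / (4 * Real.sqrt (d * t)) * (1 - ‖x - y‖ / (4 * Real.sqrt (d * t))))) t := by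
  have hdt : 0 < d * t := mul_pos hd ht
  have hS : 0 < Real.sqrt (d * t) := Real.sqrt_pos.2 hdt
  have hSS : Real.sqrt (d * t) ^ 2 = d * t := Real.sq_sqrt hdt.le
  have h0 : HasDerivAt (fun s => d * s) d t := by
    simpa using (hasDerivAt_id t).const_mul d
  have h1 : HasDerivAt (fun s => Real.sqrt (d * s)) (d / (2 * Real.sqrt (d * t))) t :=
    h0.sqrt hdt.ne'
  have h2 : HasDerivAt (fun s => 4 * Real.sqrt (d * s)) (4 * (d / (2 * Real.sqrt (d * t)))) t :=
    h1.const_mul 4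
  have h3 : HasDerivAt (fun s => ‖x - y‖ / (4 * Real.sqrt (d * s)))
      (-(‖x - y‖ / (4 * Real.sqrt (d * t))) / (2 * t)) t := by
    have h4 := (hasDerivAt_const t ‖x - y‖).div h2 (by positivity)
    refine h4.congr_deriv ?_
    set S := Real.sqrt (d * t)
    have hd' : d = S ^ 2 / t := by
      rw [hSS]
      field_simp
    rw [hd']
    field_simp
    ring
  have h5 := (((h3.const_mul 2).sub (h3.pow 2)).const_mul B).mul_const
    (Real.exp (A * (q x + q y)))
  refine (h5.congr_deriv ?_)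
  simp only [Nat.cast_ofNat, Nat.add_one_sub_one, pow_one]
  field_simp
  ring

/-- The claim: the barrier dominates the differences. -/
theorem core (hΩ : Dom Ω q) {A K E0 : ℝ}
    (hb : ∀ (B σ : ℝ) (f : Eu p → ℝ) (f' : Eu p → Eu p) (x y : Eu p), 0 < B → 0 < σ →
      C1 Ω f f' → Neu Ω q f' → x ∈ frontier Ω → y ∈ closure Ω → 0 < ‖x - y‖ → ‖x - y‖ < σ →
      ∃ᶠ s in nhdsWithin (0 : ℝ) (Ioi 0), x + s • (-gradient q x) ∈ Ω ∧
        f x - Psi q B σ A x y <
          f (x + s • (-gradient q x)) - Psi q B σ A (x + s • (-gradient q x)) y)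
    (hr : ∀ (B σ : ℝ) (f : Eu p → ℝ) (f' : Eu p → Eu p) (H : Eu p → Eu p →L[ℝ] Eu p)
      (x y : Eu p), 0 < B → 0 < σ → C2 Ω f f' H → x ∈ Ω → y ∈ Ω → 0 < ‖x - y‖ →
      ‖x - y‖ < σ → IsLocalMax (fun a : Eu p × Eu p => f a.1 - f a.2 - Psi q B σ A a.1 a.2) (x, y) →
      tr (H x) - tr (H y) ≤ Real.exp (A * (q x + q y)) *
        (-(8 * B / σ ^ 2) + K * (2 * B / σ + B)))
    (hK : 0 ≤ K) (hE0 : 0 < E0)
    (hE : ∀ x ∈ closure Ω, ∀ y ∈ closure Ω, E0 ≤ Real.exp (A * (q x + q y)))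
    {z : ℝ → Eu p → ℝ} {g : ℝ → Eu p → Eu p} {H : ℝ → Eu p → Eu p →L[ℝ] Eu p}
    {z' : ℝ → Eu p → ℝ} {d M F T : ℝ} (hz : Evo Ω q z g H z') (hd : 0 < d) (hM : 0 < M)
    (hF : 0 ≤ F) (hFT : 8 * F * T ≤ M)
    (hbd : ∀ t, 0 ≤ t → t ≤ T → ∀ x ∈ closure Ω, |z t x| ≤ M)
    (heq : ∀ t, 0 < t → t ≤ T → ∀ x ∈ closure Ω, |z' t x - d * tr (H t x)| ≤ F)
    (hc : K * (Real.sqrt (d * T) / 2 + d * T) < 1 / 8) :
    ∀ t, 0 < t → t ≤ T → ∀ x ∈ closure Ω, ∀ y ∈ closure Ω, ‖x - y‖ ≤ 4 * Real.sqrt (d * t) →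
      z t x - z t y ≤ Psi q (2 * M / E0) (4 * Real.sqrt (d * t)) A x y := by
  by_contra hcon
  push Not at hcon
  obtain ⟨t1, ht1, ht1T, x1, hx1, y1, hy1, hxy1, hlt⟩ := hcon
  set B : ℝ := 2 * M / E0 with hB
  have hB0 : 0 < B := by positivity
  set Φ : ℝ × (Eu p × Eu p) → ℝ := fun a =>
    z a.1 a.2.1 - z a.1 a.2.2 - Psi q B (4 * Real.sqrt (d * a.1)) A a.2.1 a.2.2 with hΦ
  set η : ℝ := Φ (t1, (x1, y1)) with hη
  have hη0 : 0 < η := by
    rw [hη, hΦ]
    simp only
    linarith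
  -- uniform continuity
  have hcz : ContinuousOn (fun a : ℝ × Eu p => z a.1 a.2) (Icc 0 T ×ˢ closure Ω) :=
    hz.cz.mono fun a ha => ⟨ha.1.1, ha.2⟩
  have huc := (isCompact_Icc.prod hΩ.isCompact).uniformContinuousOn_of_continuous hcz
  rw [Metric.uniformContinuousOn_iff] at huc
  obtain ⟨δ, hδ, hu⟩ := huc η hη0
  set t0 : ℝ := (δ / 8) ^ 2 / d with ht0
  have ht00 : 0 < t0 := by positivity
  have hs0 : Real.sqrt (d * t0) = δ / 8 := by
    rw [ht0, mul_div_cancel₀ _ hd.ne']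
    exact Real.sqrt_sq (by positivity)
  have hsmall : ∀ t x y, 0 < t → t ≤ T → t ≤ t0 → x ∈ closure Ω → y ∈ closure Ω →
      ‖x - y‖ ≤ 4 * Real.sqrt (d * t) → Φ (t, (x, y)) < η := by
    intro t x y ht htT htt hx hy hxy
    have h1 : Real.sqrt (d * t) ≤ δ / 8 := by
      rw [← hs0]
      exact Real.sqrt_le_sqrt (mul_le_mul_of_nonneg_left htt hd.le)
    have h2 : dist (t, x) (t, y) < δ := by
      rw [Prod.dist_eq]
      simp only [dist_self, dist_eq_norm]
      rw [max_lt_iff]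
      constructor
      · linarith
      · linarith
    have h3 := hu (t, x) ⟨⟨ht.le, htT⟩, hx⟩ (t, y) ⟨⟨ht.le, htT⟩, hy⟩ h2
    rw [Real.dist_eq] at h3
    have h4 := (abs_lt.1 h3).2
    have h5 : 0 ≤ Psi q B (4 * Real.sqrt (d * t)) A x y :=
      psi_nonneg hB0.le (by have := Real.sqrt_pos.2 (mul_pos hd ht); positivity) hxy
    rw [hΦ]
    simp only at h4 ⊢
    linarith
  have ht01 : t0 < t1 := by
    by_contra hcon
    push Not at hcon
    exact lt_irrefl _ (hsmall t1 x1 y1 ht1 ht1T hcon hx1 hy1 hxy1)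
  -- the maximum
  set K0 : Set (ℝ × (Eu p × Eu p)) := (Icc t0 T ×ˢ (closure Ω ×ˢ closure Ω)) ∩
    {a | ‖a.2.1 - a.2.2‖ ≤ 4 * Real.sqrt (d * a.1)} with hK0
  have hK0c : IsCompact K0 := by
    refine (isCompact_Icc.prod (hΩ.isCompact.prod hΩ.isCompact)).inter_right ?_
    exact isClosed_le (by fun_prop) (by fun_prop)
  have hΦc : ContinuousOn Φ K0 := by
    have e1 : ContinuousOn (fun a : ℝ × (Eu p × Eu p) => z a.1 a.2.1) K0 := by
      have : ContinuousOn ((fun a : ℝ × Eu p => z a.1 a.2) ∘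
          (fun a : ℝ × (Eu p × Eu p) => (a.1, a.2.1))) K0 := by
        refine hz.cz.comp (by fun_prop) ?_
        intro a ha
        exact ⟨ht00.le.trans ha.1.1.1, ha.1.2.1⟩
      exact this
    have e2 : ContinuousOn (fun a : ℝ × (Eu p × Eu p) => z a.1 a.2.2) K0 := by
      have : ContinuousOn ((fun a : ℝ × Eu p => z a.1 a.2) ∘
          (fun a : ℝ × (Eu p × Eu p) => (a.1, a.2.2))) K0 := by
        refine hz.cz.comp (by fun_prop) ?_
        intro a ha
        exact ⟨ht00.le.trans ha.1.1.1, ha.1.2.2⟩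
      exact this
    have hq := hΩ.cont
    have e3 : ContinuousOn (fun a : ℝ × (Eu p × Eu p) =>
        ‖a.2.1 - a.2.2‖ / (4 * Real.sqrt (d * a.1))) K0 := by
      refine ContinuousOn.div (by fun_prop) (by fun_prop) ?_
      intro a ha
      have : 0 < Real.sqrt (d * a.1) := Real.sqrt_pos.2 (mul_pos hd (ht00.trans_le ha.1.1.1))
      positivity
    have e4 : ContinuousOn (fun a : ℝ × (Eu p × Eu p) =>
        Real.exp (A * (q a.2.1 + q a.2.2))) K0 := by
      apply Continuous.continuousOn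
      fun_prop
    refine (e1.sub e2).sub ?_
    unfold Psi
    exact (continuousOn_const.mul ((continuousOn_const.mul e3).sub (e3.pow 2))).mul e4
  obtain ⟨⟨t, x, y⟩, haK, hmax⟩ := hK0c.exists_isMaxOn
    ⟨(t1, (x1, y1)), ⟨⟨ht01.le, ht1T⟩, hx1, hy1⟩, hxy1⟩ hΦc
  obtain ⟨⟨⟨htt0, htT⟩, hx, hy⟩, hxy⟩ := haK
  simp only at htt0 htT hx hy
  simp only [mem_ofPred_eq] at hxy
  have ht : 0 < t := ht00.trans_le htt0
  have hmaxη : η ≤ Φ (t, (x, y)) := hmax ⟨⟨⟨ht01.le, ht1T⟩, hx1, hy1⟩, hxy1⟩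
  have hpos : 0 < Φ (t, (x, y)) := hη0.trans_le hmaxη
  have hmax' : ∀ t' x' y', 0 < t' → t' ≤ T → x' ∈ closure Ω → y' ∈ closure Ω →
      ‖x' - y'‖ ≤ 4 * Real.sqrt (d * t') → Φ (t', (x', y')) ≤ Φ (t, (x, y)) := by
    intro t' x' y' h1 h2 h3 h4 h5
    by_cases h6 : t' ≤ t0
    · exact (hsmall t' x' y' h1 h2 h6 h3 h4 h5).le.trans hmaxη
    · push Not at h6
      exact hmax ⟨⟨⟨h6.le, h2⟩, h3, h4⟩, h5⟩
  have hS : 0 < Real.sqrt (d * t) := Real.sqrt_pos.2 (mul_pos hd ht)
  have hσ : 0 < 4 * Real.sqrt (d * t) := by positivity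
  have hE1 := hE x hx y hy
  -- the distance is positive and less than sigma
  have hxy0 : 0 < ‖x - y‖ := by
    by_contra hcon
    have h0 : ‖x - y‖ = 0 := le_antisymm (not_lt.1 hcon) (norm_nonneg _)
    have h1 : x = y := by
      rwa [norm_eq_zero, sub_eq_zero] at h0
    rw [hΦ] at hpos
    simp only at hpos
    unfold Psi at hpos
    rw [h0, h1] at hpos
    simp at hpos
  have hbx := abs_le.1 (hbd t ht.le htT x hx)
  have hby := abs_le.1 (hbd t ht.le htT y hy)
  have hxyσ : ‖x - y‖ < 4 * Real.sqrt (d * t) := by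
    rcases lt_or_eq_of_le hxy with h | h
    · exact h
    · exfalso
      rw [hΦ] at hpos
      simp only at hpos
      unfold Psi at hpos
      rw [h, div_self hσ.ne'] at hpos
      have h1 : 2 * M ≤ B * (2 * 1 - 1 ^ 2) * Real.exp (A * (q x + q y)) := by
        have h2 : B * E0 = 2 * M := by
          rw [hB]
          field_simp
        calc 2 * M = B * E0 := h2.symm
          _ ≤ B * Real.exp (A * (q x + q y)) := mul_le_mul_of_nonneg_left hE1 hB0.le
          _ = _ := by ring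
      linarith [hbx.2, hby.1]
  have hC1 := hz.C1 ht
  have hC2 := hz.C2 ht
  -- x is not on the boundary
  have hnear : ∀ᶠ w in 𝓝 (x, y), ‖w.1 - w.2‖ < 4 * Real.sqrt (d * t) := by
    have h1 : Continuous fun w : Eu p × Eu p => ‖w.1 - w.2‖ := by fun_prop
    exact h1.continuousAt.eventually_lt continuousAt_const hxyσ
  have hxΩ : x ∈ Ω := by
    rcases hΩ.mem_or_frontier hx with h | h
    · exact h
    · exfalso
      have h1 := hb B (4 * Real.sqrt (d * t)) (z t) (g t) x y hB0 hσ hC1 (hz.neu t ht) h hy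
        hxy0 hxyσ
      have h2 : Tendsto (fun s : ℝ => (x + s • (-gradient q x), y)) (𝓝[>] 0) (𝓝 (x, y)) := by
        have h3 : Continuous (fun s : ℝ => (x + s • (-gradient q x), y)) := by fun_prop
        have h4 := h3.tendsto 0
        simp only [zero_smul, add_zero] at h4
        exact h4.mono_left nhdsWithin_le_nhds
      obtain ⟨s, ⟨hs1, hs2⟩, hs3⟩ := (h1.and_eventually (h2.eventually hnear)).exists
      have h5 := hmax' t (x + s • (-gradient q x)) y ht htT (subset_closure hs1) hy hs3.le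
      rw [hΦ] at h5
      simp only at h5
      linarith
  have hyΩ : y ∈ Ω := by
    rcases hΩ.mem_or_frontier hy with h | h
    · exact h
    · exfalso
      have h0 : C1 Ω (fun w => -z t w) (fun w => -g t w) := by
        have := C1.const_mul (-1) hC1
        simpa using this
      have h0' : Neu Ω q (fun w => -g t w) := by
        intro w hw
        rw [inner_neg_left, hz.neu t ht w hw, neg_zero]
      have h1 := hb B (4 * Real.sqrt (d * t)) (fun w => -z t w) (fun w => -g t w) y x hB0 hσ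
        h0 h0' h hx (by rwa [norm_sub_rev]) (by rwa [norm_sub_rev])
      have h2 : Tendsto (fun s : ℝ => (x, y + s • (-gradient q y))) (𝓝[>] 0) (𝓝 (x, y)) := by
        have h3 : Continuous (fun s : ℝ => (x, y + s • (-gradient q y))) := by fun_prop
        have h4 := h3.tendsto 0
        simp only [zero_smul, add_zero] at h4
        exact h4.mono_left nhdsWithin_le_nhds
      obtain ⟨s, ⟨hs1, hs2⟩, hs3⟩ := (h1.and_eventually (h2.eventually hnear)).exists
      have h5 := hmax' t x (y + s • (-gradient q y)) ht htT hx (subset_closure hs1) hs3.le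
      rw [hΦ] at h5
      simp only at h5
      rw [psi_symm B _ A y x, psi_symm B _ A (y + s • (-gradient q y)) x] at hs2
      linarith
  -- the second order condition
  have hloc : IsLocalMax (fun a : Eu p × Eu p =>
      z t a.1 - z t a.2 - Psi q B (4 * Real.sqrt (d * t)) A a.1 a.2) (x, y) := by
    have h1 : ∀ᶠ w in 𝓝 (x, y), w.1 ∈ Ω ∧ w.2 ∈ Ω := by
      have h2 : Ω ×ˢ Ω ∈ 𝓝 (x, y) := (hΩ.isOpen.prod hΩ.isOpen).mem_nhds ⟨hxΩ, hyΩ⟩
      filter_upwards [h2] with w hw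
      exact hw
    filter_upwards [h1, hnear] with w hw1 hw2
    exact hmax' t w.1 w.2 ht htT (subset_closure hw1.1) (subset_closure hw1.2) hw2.le
  have hsec := hr B (4 * Real.sqrt (d * t)) (z t) (g t) (H t) x y hB0 hσ hC2 hxΩ hyΩ hxy0 hxyσ hloc
  -- the time derivative
  have hder : HasDerivAt (fun s => Φ (s, (x, y))) (z' t x - z' t y -
      (-(B * Real.exp (A * (q x + q y)) / t) *
        (‖x - y‖ / (4 * Real.sqrt (d * t)) * (1 - ‖x - y‖ / (4 * Real.sqrt (d * t)))))) t :=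
    ((hz.dt t ht x hx).sub (hz.dt t ht y hy)).sub (hasDerivAt_psi hd ht x y)
  have hleft : ∀ᶠ s in 𝓝[<] t, Φ (s, (x, y)) ≤ Φ (t, (x, y)) := by
    have h1 : ∀ᶠ s in 𝓝 t, ‖x - y‖ < 4 * Real.sqrt (d * s) := by
      have h2 : Continuous fun s : ℝ => 4 * Real.sqrt (d * s) := by fun_prop
      exact continuousAt_const.eventually_lt h2.continuousAt hxyσ
    filter_upwards [h1.filter_mono nhdsWithin_le_nhds, self_mem_nhdsWithin,
      (eventually_gt_nhds ht).filter_mono nhdsWithin_le_nhds] with s hs1 hs2 hs3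
    exact hmax' s x y hs3 ((le_of_lt hs2).trans htT) hx hy hs1.le
  have hD := deriv_nonneg_left hder hleft
  -- conclusion
  have hf1 := (abs_le.1 (heq t ht htT x hx)).2
  have hf2 := (abs_le.1 (heq t ht htT y hy)).1
  set E : ℝ := Real.exp (A * (q x + q y)) with hEd
  have hEpos : 0 < E := Real.exp_pos _
  set S : ℝ := Real.sqrt (d * t) with hSd
  have hSS : S ^ 2 = d * t := Real.sq_sqrt (mul_pos hd ht).le
  set u : ℝ := ‖x - y‖ / (4 * S) with hud
  have hu1 : u * (1 - u) ≤ 1 / 4 := by nlinarith [sq_nonneg (u - 1 / 2)]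
  have hBE : 0 < B * E := mul_pos hB0 hEpos
  -- multiply by t
  have e1 : t * (z' t x - z' t y) ≤ t * (d * (tr (H t x) - tr (H t y))) + 2 * F * t := by
    nlinarith
  have e2 : t * (d * (tr (H t x) - tr (H t y))) ≤ B * E * (-(1 / 2) + K * (S / 2 + S ^ 2)) := by
    have h1 := mul_le_mul_of_nonneg_left hsec (mul_pos ht hd).le
    have h2 : t * d * (E * (-(8 * B / (4 * S) ^ 2) + K * (2 * B / (4 * S) + B))) =
        B * E * (-(1 / 2) + K * (S / 2 + S ^ 2)) := by
      have h3 : t * d = S ^ 2 := by rw [hSS]; ring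
      rw [h3]
      field_simp
      ring
    rw [h2] at h1
    linarith
  have e3 : 0 ≤ t * (z' t x - z' t y) + B * E * (u * (1 - u)) := by
    have h1 := mul_nonneg ht.le hD
    have h2 : t * (z' t x - z' t y - (-(B * E / t) * (u * (1 - u)))) =
        t * (z' t x - z' t y) + B * E * (u * (1 - u)) := by
      field_simp
      ring
    rwa [h2] at h1
  have e4 : B * E * (u * (1 - u)) ≤ B * E * (1 / 4) := mul_le_mul_of_nonneg_left hu1 hBE.le
  have e5 : 2 * F * t ≤ B * E * (1 / 8) := by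
    have h1 : 2 * F * t ≤ 2 * F * T := mul_le_mul_of_nonneg_left htT (by positivity)
    have h2 : B * E0 = 2 * M := by
      rw [hB]
      field_simp
    have h3 : B * E0 ≤ B * E := mul_le_mul_of_nonneg_left hE1 hB0.le
    linarith
  have e6 : K * (S / 2 + S ^ 2) < 1 / 8 := by
    refine lt_of_le_of_lt ?_ hc
    apply mul_le_mul_of_nonneg_left _ hK
    have h1 : d * t ≤ d * T := mul_le_mul_of_nonneg_left htT hd.le
    have h2 : S ≤ Real.sqrt (d * T) := Real.sqrt_le_sqrt h1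
    rw [hSS]
    linarith
  have e7 : B * E * (K * (S / 2 + S ^ 2)) < B * E * (1 / 8) := mul_lt_mul_of_pos_left e6 hBE
  nlinarith

/-- The estimate from the claim. -/
theorem lip_core (hΩ : Dom Ω q) {A K E0 : ℝ} (hA : 0 < A)
    (hb : ∀ (B σ : ℝ) (f : Eu p → ℝ) (f' : Eu p → Eu p) (x y : Eu p), 0 < B → 0 < σ →
      C1 Ω f f' → Neu Ω q f' → x ∈ frontier Ω → y ∈ closure Ω → 0 < ‖x - y‖ → ‖x - y‖ < σ →
      ∃ᶠ s in nhdsWithin (0 : ℝ) (Ioi 0), x + s • (-gradient q x) ∈ Ω ∧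
        f x - Psi q B σ A x y <
          f (x + s • (-gradient q x)) - Psi q B σ A (x + s • (-gradient q x)) y)
    (hr : ∀ (B σ : ℝ) (f : Eu p → ℝ) (f' : Eu p → Eu p) (H : Eu p → Eu p →L[ℝ] Eu p)
      (x y : Eu p), 0 < B → 0 < σ → C2 Ω f f' H → x ∈ Ω → y ∈ Ω → 0 < ‖x - y‖ →
      ‖x - y‖ < σ → IsLocalMax (fun a : Eu p × Eu p => f a.1 - f a.2 - Psi q B σ A a.1 a.2) (x, y) →
      tr (H x) - tr (H y) ≤ Real.exp (A * (q x + q y)) *
        (-(8 * B / σ ^ 2) + K * (2 * B / σ + B)))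
    (hK : 0 ≤ K) (hE0 : 0 < E0)
    (hE : ∀ x ∈ closure Ω, ∀ y ∈ closure Ω, E0 ≤ Real.exp (A * (q x + q y)))
    {c : ℝ} (hc : K * (Real.sqrt c / 2 + c) < 1 / 8) : LipC Ω q (1 / E0) c := by
  intro z g H z' d M F T hz hd hM hF hT hdT hFT hbd heq
  have hdT0 : 0 < d * T := mul_pos hd hT
  have hc' : K * (Real.sqrt (d * T) / 2 + d * T) < 1 / 8 := by
    refine lt_of_le_of_lt (mul_le_mul_of_nonneg_left ?_ hK) hc
    have := Real.sqrt_le_sqrt hdT
    linarith
  have hcore := core hΩ hb hr hK hE0 hE hz hd hM hF hFT hbd heq hc' T hT le_rfl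
  have hS : 0 < Real.sqrt (d * T) := Real.sqrt_pos.2 hdT0
  have hE1 : E0 ≤ 1 := by
    obtain ⟨x, hx⟩ := hΩ.closure_nonempty
    refine (hE x hx x hx).trans ?_
    rw [Real.exp_le_one_iff]
    have := hΩ.mem_closure_iff.1 hx
    nlinarith
  have key : ∀ x ∈ closure Ω, ∀ y ∈ closure Ω,
      z T x - z T y ≤ 1 / E0 * M / Real.sqrt (d * T) * ‖x - y‖ := by
    intro x hx y hy
    have hn : 0 ≤ ‖x - y‖ := norm_nonneg _
    by_cases h : ‖x - y‖ ≤ 4 * Real.sqrt (d * T)
    · refine (hcore x hx y hy h).trans ?_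
      unfold Psi
      have h1 : Real.exp (A * (q x + q y)) ≤ 1 := by
        rw [Real.exp_le_one_iff]
        have h2 := hΩ.mem_closure_iff.1 hx
        have h3 := hΩ.mem_closure_iff.1 hy
        nlinarith
      have h4 : 0 ≤ ‖x - y‖ / (4 * Real.sqrt (d * T)) := by positivity
      have h5 : ‖x - y‖ / (4 * Real.sqrt (d * T)) ≤ 1 := (div_le_one (by positivity)).2 h
      have h6 : 0 ≤ 2 * (‖x - y‖ / (4 * Real.sqrt (d * T))) -
          (‖x - y‖ / (4 * Real.sqrt (d * T))) ^ 2 := by nlinarith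
      have h7 : 2 * (‖x - y‖ / (4 * Real.sqrt (d * T))) -
          (‖x - y‖ / (4 * Real.sqrt (d * T))) ^ 2 ≤ 2 * (‖x - y‖ / (4 * Real.sqrt (d * T))) := by
        nlinarith [sq_nonneg (‖x - y‖ / (4 * Real.sqrt (d * T)))]
      calc 2 * M / E0 * (2 * (‖x - y‖ / (4 * Real.sqrt (d * T))) -
            (‖x - y‖ / (4 * Real.sqrt (d * T))) ^ 2) * Real.exp (A * (q x + q y))
          ≤ 2 * M / E0 * (2 * (‖x - y‖ / (4 * Real.sqrt (d * T))) -
            (‖x - y‖ / (4 * Real.sqrt (d * T))) ^ 2) * 1 :=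
            mul_le_mul_of_nonneg_left h1 (mul_nonneg (by positivity) h6)
        _ ≤ 2 * M / E0 * (2 * (‖x - y‖ / (4 * Real.sqrt (d * T)))) := by
            rw [mul_one]
            exact mul_le_mul_of_nonneg_left h7 (by positivity)
        _ = 1 / E0 * M / Real.sqrt (d * T) * ‖x - y‖ := by
            field_simp
            ring
    · push Not at h
      have h1 := (abs_le.1 (hbd T hT.le le_rfl x hx)).2
      have h2 := (abs_le.1 (hbd T hT.le le_rfl y hy)).1
      have h3 : 4 * M ≤ 1 / E0 * M / Real.sqrt (d * T) * ‖x - y‖ := by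
        have h4 : (1 : ℝ) ≤ 1 / E0 := by
          rw [le_div_iff₀ hE0]
          linarith
        calc 4 * M = 1 * M / Real.sqrt (d * T) * (4 * Real.sqrt (d * T)) := by
              field_simp
          _ ≤ 1 / E0 * M / Real.sqrt (d * T) * ‖x - y‖ := by
              apply mul_le_mul _ h.le (by positivity) (by positivity)
              apply div_le_div_of_nonneg_right _ hS.le
              exact mul_le_mul_of_nonneg_right h4 hM.le
      linarith
  intro x hx y hy
  rw [abs_le]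
  constructor
  · have := key y hy x hx
    rw [norm_sub_rev] at this
    linarith
  · exact key x hx y hy

/-- **LIP** -/
theorem lip_st (hBdx : BdxStatement) (hRfl : RflStatement) : LipStatement := by
  intro p Ω q hΩ
  obtain ⟨A₀, hA0, hcv, hb⟩ := hBdx p Ω q hΩ
  obtain ⟨C, hC, hr⟩ := hRfl p Ω q hΩ
  obtain ⟨Q, hQ0, hQ⟩ := hΩ.exists_bound hΩ.cont.continuousOn
  have hexp : ∀ A : ℝ, 0 < A → ∀ x ∈ closure Ω, ∀ y ∈ closure Ω,
      Real.exp (-(2 * A * Q)) ≤ Real.exp (A * (q x + q y)) := by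
    intro A hA x hx y hy
    apply Real.exp_le_exp.2
    have h1 := (abs_le.1 (hQ x hx)).1
    have h2 := (abs_le.1 (hQ y hy)).1
    nlinarith
  constructor
  · set A : ℝ := A₀ + 1 with hA
    have hApos : 0 < A := by linarith
    set K : ℝ := C * (A + A ^ 2) with hK
    have hK0 : 0 ≤ K := by positivity
    refine ⟨1 / Real.exp (-(2 * A * Q)), (1 / (12 * K + 13)) ^ 2, by positivity, by positivity, ?_⟩
    refine lip_core hΩ (A := A) (K := K) hApos (fun B σ f f' x y => hb A B σ f f' x y (by linarith))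
      (fun B σ f f' H x y => hr A B σ f f' H x y hApos) hK0 (Real.exp_pos _) (hexp A hApos) ?_
    rw [Real.sqrt_sq (by positivity)]
    set e : ℝ := 1 / (12 * K + 13) with he
    have he0 : 0 < e := by positivity
    have he1 : e ≤ 1 := by
      rw [he, div_le_one (by positivity)]
      linarith
    have h1 : e / 2 + e ^ 2 ≤ 3 / 2 * e := by nlinarith
    have h2 : (12 * K + 13) * e = 1 := by
      rw [he]
      field_simp
    nlinarith [mul_le_mul_of_nonneg_left h1 hK0]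
  · intro hconv c
    have hA00 := hcv hconv
    set c' : ℝ := max c 1 with hc'
    have hc'1 : 1 ≤ c' := le_max_right _ _
    set L : ℝ := 2 * C * (Real.sqrt c' / 2 + c') with hL
    have hL0 : 0 ≤ L := by positivity
    set A : ℝ := min (1 / (8 * L + 8)) (1 / (4 * Q)) with hA
    have hApos : 0 < A := lt_min (by positivity) (by positivity)
    have hA1 : A ≤ 1 / (8 * L + 8) := min_le_left _ _
    have hA2 : A ≤ 1 / (4 * Q) := min_le_right _ _
    have hA3 : A ≤ 1 := by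
      refine hA1.trans ?_
      rw [div_le_one (by positivity)]
      linarith
    have hE0 : (1 : ℝ) / 2 ≤ Real.exp (-(2 * A * Q)) := by
      have h1 := Real.add_one_le_exp (-(2 * A * Q))
      have h2 : A * (4 * Q) ≤ 1 := by
        rwa [le_div_iff₀ (by positivity)] at hA2
      linarith
    set K : ℝ := C * (A + A ^ 2) with hK
    have hK0 : 0 ≤ K := by positivity
    have h3 := lip_core hΩ (A := A) (K := K) (E0 := 1 / 2) (c := c') hApos
      (fun B σ f f' x y => hb A B σ f f' x y (by linarith))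
      (fun B σ f f' H x y => hr A B σ f f' H x y hApos) hK0 (by norm_num)
      (fun x hx y hy => hE0.trans (hexp A hApos x hx y hy)) ?_
    · intro z g H z' d M F T hz hd hM hF hT hdT hFT hbd heq
      have h4 := h3 z g H z' d M F T hz hd hM hF hT (hdT.trans (le_max_left _ _)) hFT hbd heq
      have h5 : (1 : ℝ) / (1 / 2) = 2 := by norm_num
      rwa [h5] at h4
    · have h1 : K ≤ 2 * C * A := by
        rw [hK]
        have : A + A ^ 2 ≤ 2 * A := by nlinarith
        nlinarith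
      have h0 : 0 ≤ Real.sqrt c' / 2 + c' := by positivity
      have h2 : K * (Real.sqrt c' / 2 + c') ≤ L * A := by
        calc K * (Real.sqrt c' / 2 + c') ≤ 2 * C * A * (Real.sqrt c' / 2 + c') :=
              mul_le_mul_of_nonneg_right h1 h0
          _ = L * A := by rw [hL]; ring
      have h4 : A * (8 * L + 8) ≤ 1 := by
        rwa [le_div_iff₀ (by positivity)] at hA1
      nlinarith

end Pool.Agent.Lib.MP_4fbe7c_an.ND.H45
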